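import Pool.Agent.W47.JL.Defs

/-! # JL-TRANS: transference -/

set_option autoImplicit false

namespace Pool.Agent.W515.JL.Trans

open Finset
open Pool.Agent.W47.JL

lemma pigeon (n q A : ℕ) (hq : 1 ≤ q) (hA : q < (A + 1) ^ n) (p : ℕ → ℤ) :
    ∃ d : ℕ → ℤ, (∃ j < n, d j ≠ 0) ∧ (∀ j, |d j| ≤ A) ∧
      (q : ℤ) ∣ ∑ j ∈ range n, d j * p (j + 1) := by
  classical
  haveI : NeZero q := ⟨by omega⟩
  let F : (Fin n → Fin (A + 1)) → ZMod q :=
    fun a => ∑ j : Fin n, ((a j : ℕ) : ZMod q) * ((p (j + 1) : ℤ) : ZMod q)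
  have hcard : Fintype.card (ZMod q) < Fintype.card (Fin n → Fin (A + 1)) := by
    rw [ZMod.card]
    simpa using hA
  obtain ⟨a, b, hab, hF⟩ := Fintype.exists_ne_map_eq_of_card_lt F hcard
  refine ⟨fun j => if h : j < n then ((a ⟨j, h⟩ : ℕ) : ℤ) - (b ⟨j, h⟩ : ℕ) else 0, ?_, ?_, ?_⟩
  · by_contra h
    push Not at h
    apply hab
    funext j
    have := h j j.2
    simp at this
    apply Fin.ext
    omega
  · intro j
    beta_reduce
    split_ifs with h
    · have h1 := (a ⟨j, h⟩).2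
      have h2 := (b ⟨j, h⟩).2
      rw [abs_le]
      constructor <;> omega
    · simp
  · rw [← ZMod.intCast_zmod_eq_zero_iff_dvd, Finset.sum_range]
    have : F a - F b = 0 := by rw [hF, sub_self]
    rw [← this]
    simp only [F]
    rw [← Finset.sum_sub_distrib, Int.cast_sum]
    apply Finset.sum_congr rfl
    intro j _
    simp [j.2]
    ring

theorem trans : S_TRANS := by
  intro hL n ε hn hε
  have hn0 : (0 : ℝ) < n := by exact_mod_cast hn
  obtain ⟨c0, hc0, h0⟩ := hL n (n * ε) (by positivity)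
  set E : ℝ := 2 * n * Real.exp n with hE
  have hE1 : 1 ≤ E := by
    have h1 : (1 : ℝ) ≤ n := by exact_mod_cast hn
    have h2 : 1 ≤ Real.exp (n : ℝ) := Real.one_le_exp hn0.le
    rw [hE]
    nlinarith
  have hE0 : 0 < E := by linarith
  set M : ℝ := E ^ ((n : ℝ) + n * ε) with hM
  have hM0 : 0 < M := Real.rpow_pos_of_pos hE0 _
  refine ⟨min 1 (c0 / (2 * (M * n))), by positivity, ?_⟩
  intro q hq p
  set c : ℝ := min 1 (c0 / (2 * (M * n))) with hc
  have hcpos : 0 < c := by positivity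
  have hc1 : c ≤ 1 := min_le_left _ _
  have hc2 : c ≤ c0 / (2 * (M * n)) := min_le_right _ _
  have hq1 : (1 : ℝ) ≤ q := by exact_mod_cast hq
  have hq0 : (0 : ℝ) < q := by linarith
  by_contra hcon
  push Not at hcon
  set Q : ℝ := (q : ℝ) ^ (1 / (n : ℝ)) with hQ
  have hQ0 : 0 < Q := Real.rpow_pos_of_pos hq0 _
  have hQ1 : 1 ≤ Q := Real.one_le_rpow hq1 (by positivity)
  have hQn : Q ^ n = q := by
    rw [hQ, ← Real.rpow_natCast, ← Real.rpow_mul hq0.le]
    rw [one_div, inv_mul_cancel₀ hn0.ne', Real.rpow_one]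
  set A : ℕ := ⌊Q⌋₊ with hA
  have hAQ : (A : ℝ) ≤ Q := Nat.floor_le hQ0.le
  have hQA : Q < A + 1 := Nat.lt_floor_add_one Q
  have hAn : q < (A + 1) ^ n := by
    have : (q : ℝ) < ((A + 1 : ℕ) : ℝ) ^ n := by
      rw [← hQn]
      push_cast
      exact pow_lt_pow_left₀ hQA hQ0.le (by omega)
    exact_mod_cast this
  obtain ⟨d, ⟨j0, hj0, hd0⟩, hdA, ⟨z, hz⟩⟩ := pigeon n q A hq hAn p
  set R : ℝ := (q : ℝ) ^ (1 / (n : ℝ) + ε) with hR
  have hR0 : 0 < R := Real.rpow_pos_of_pos hq0 _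
  have hR1 : 1 ≤ R := Real.one_le_rpow hq1 (by positivity)
  set δ : ℝ := c / R with hδ
  have hδ0 : 0 < δ := by positivity
  have hδ1 : δ ≤ 1 := by
    rw [hδ, div_le_one hR0]
    linarith
  have hδj : ∀ j < n, |q * Real.exp ((j + 1 : ℕ) : ℝ) - p (j + 1)| ≤ δ := by
    intro j hj
    have := hcon (j + 1) (by omega) (by omega)
    rw [hδ, le_div_iff₀ hR0]
    linarith
  have hpj : ∀ j < n, |(p (j + 1) : ℝ)| ≤ 2 * q * Real.exp n := by
    intro j hj
    have h1 := hδj j hj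
    have h2 : Real.exp ((j + 1 : ℕ) : ℝ) ≤ Real.exp n := by
      apply Real.exp_le_exp.2
      exact_mod_cast hj
    have h3 : |(p (j + 1) : ℝ)| ≤ |q * Real.exp ((j + 1 : ℕ) : ℝ) - p (j + 1)| +
        |q * Real.exp ((j + 1 : ℕ) : ℝ)| := by
      have := abs_sub_abs_le_abs_sub (p (j + 1) : ℝ) (q * Real.exp ((j + 1 : ℕ) : ℝ))
      rw [abs_sub_comm] at this
      linarith
    have h4 : |q * Real.exp ((j + 1 : ℕ) : ℝ)| = q * Real.exp ((j + 1 : ℕ) : ℝ) := by
      rw [abs_of_pos]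
      positivity
    have h5 : 1 ≤ Real.exp (n : ℝ) := Real.one_le_exp hn0.le
    have h6 : 1 ≤ q * Real.exp (n : ℝ) := by nlinarith
    have h7 : q * Real.exp ((j + 1 : ℕ) : ℝ) ≤ q * Real.exp n :=
      mul_le_mul_of_nonneg_left h2 hq0.le
    linarith
  have hdR : ∀ j, |(d j : ℝ)| ≤ Q := by
    intro j
    have h1 : ((|d j| : ℤ) : ℝ) ≤ ((A : ℤ) : ℝ) := by exact_mod_cast hdA j
    rw [Int.cast_abs] at h1
    push_cast at h1
    linarith
  have hzR : (q : ℝ) * z = ∑ j ∈ range n, (d j : ℝ) * p (j + 1) := by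
    have : ((∑ j ∈ range n, d j * p (j + 1) : ℤ) : ℝ) = ((q * z : ℤ) : ℝ) := by rw [hz]
    push_cast at this
    linarith
  -- bound for `z`
  have hzb : |(z : ℝ)| ≤ E * Q := by
    have h1 : |(q : ℝ) * z| ≤ ∑ j ∈ range n, Q * (2 * q * Real.exp n) := by
      rw [hzR]
      refine (Finset.abs_sum_le_sum_abs _ _).trans (Finset.sum_le_sum fun j hj => ?_)
      rw [abs_mul]
      exact mul_le_mul (hdR j) (hpj j (mem_range.1 hj)) (abs_nonneg _) hQ0.le
    rw [Finset.sum_const, card_range, nsmul_eq_mul, abs_mul, abs_of_pos hq0] at h1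
    have h2 : (q : ℝ) * |(z : ℝ)| ≤ q * (E * Q) := by
      rw [hE]
      linarith [h1, mul_comm (n : ℝ) Q]
    exact le_of_mul_le_mul_left h2 hq0
  -- the integer vector
  let a : ℕ → ℤ := fun i => if i = 0 then -z else d (i - 1)
  have ha0 : a 0 = -z := by simp [a]
  have has : ∀ j, a (j + 1) = d j := by intro j; simp [a]
  have hEQ : 1 ≤ E * Q := by nlinarith
  have key := h0 a ⟨j0 + 1, by omega, by rw [has]; exact hd0⟩ (E * Q) hEQ (by
    intro i hi
    rcases i with _ | j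
    · rw [ha0]
      push_cast
      rw [abs_neg]
      exact hzb
    · rw [has]
      have := hdR j
      nlinarith)
  rw [Finset.sum_range_succ'] at key
  simp only [has, ha0] at key
  have hLq : (q : ℝ) * (∑ j ∈ range n, (d j : ℝ) * Real.exp ((j + 1 : ℕ) : ℝ) +
      ((-z : ℤ) : ℝ) * Real.exp ((0 : ℕ) : ℝ)) =
      ∑ j ∈ range n, (d j : ℝ) * (q * Real.exp ((j + 1 : ℕ) : ℝ) - p (j + 1)) := by
    have e0 : Real.exp ((0 : ℕ) : ℝ) = 1 := by simp
    rw [e0]
    simp only [mul_sub]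
    rw [Finset.sum_sub_distrib, ← hzR, mul_add, Finset.mul_sum]
    push_cast
    have : ∑ i ∈ range n, (q : ℝ) * ((d i : ℝ) * Real.exp ((i : ℝ) + 1)) =
        ∑ x ∈ range n, (d x : ℝ) * ((q : ℝ) * Real.exp ((x : ℝ) + 1)) :=
      Finset.sum_congr rfl fun j _ => by ring
    rw [this]
    ring
  set L : ℝ := ∑ j ∈ range n, (d j : ℝ) * Real.exp ((j + 1 : ℕ) : ℝ) +
      ((-z : ℤ) : ℝ) * Real.exp ((0 : ℕ) : ℝ) with hLdef
  have hLb : q * |L| ≤ n * (Q * δ) := by
    have : |(q : ℝ) * L| ≤ ∑ j ∈ range n, Q * δ := by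
      rw [hLq]
      refine (Finset.abs_sum_le_sum_abs _ _).trans (Finset.sum_le_sum fun j hj => ?_)
      rw [abs_mul]
      exact mul_le_mul (hdR j) (hδj j (mem_range.1 hj)) (abs_nonneg _) hQ0.le
    rw [Finset.sum_const, card_range, nsmul_eq_mul, abs_mul, abs_of_pos hq0] at this
    exact this
  -- powers
  have hpow : (E * Q) ^ ((n : ℝ) + n * ε) = M * (q * (q : ℝ) ^ ε) := by
    rw [Real.mul_rpow hE0.le hQ0.le, ← hM]
    congr 1
    rw [hQ, ← Real.rpow_mul hq0.le]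
    have : 1 / (n : ℝ) * (n + n * ε) = 1 + ε := by
      field_simp
    rw [this, Real.rpow_add hq0, Real.rpow_one]
  have hRQ : R = Q * (q : ℝ) ^ ε := by
    rw [hR, hQ, ← Real.rpow_add hq0]
  have hqe : 0 < (q : ℝ) ^ ε := Real.rpow_pos_of_pos hq0 _
  rw [hpow] at key
  have h1 : M * (q * (q : ℝ) ^ ε) * |L| ≤ M * (q : ℝ) ^ ε * (n * (Q * δ)) := by
    have : M * (q * (q : ℝ) ^ ε) * |L| = M * (q : ℝ) ^ ε * (q * |L|) := by ring
    rw [this]
    exact mul_le_mul_of_nonneg_left hLb (by positivity)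
  have h2 : M * (q : ℝ) ^ ε * (n * (Q * δ)) = M * n * c := by
    rw [hδ, hRQ]
    field_simp
  have h3 : M * n * c ≤ c0 / 2 := by
    have : M * n * c ≤ M * n * (c0 / (2 * (M * n))) :=
      mul_le_mul_of_nonneg_left hc2 (by positivity)
    refine this.trans (le_of_eq ?_)
    field_simp
  linarith

end Pool.Agent.W515.JL.Trans
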